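import Pool.Agent.Helper24.UB.Defs
import Pool.Agent.Helper22.Sym.Core

/-! MP_be0fb5, bound (6 + √66)/4: the values of the roots on the chains (leaves N1 - N4 of helper24). -/

set_option autoImplicit false

namespace Pool.Agent.Helper1.UB2

open Matrix Pool.Agent.Helper22.Sym
open Pool.Agent.Helper12.LW (LFree chainP)
open Pool.Agent.Helper24.UB (eta tt rt pa pb)

/-- (N1) the values of a root on the chain -/
theorem chain_val (f : Fin 4 → Fin 3 → ℤ) (z : Fin 3 → ℤ) (σ : Equiv.Perm (Fin 3)) (r : Fin 3 → ℤ) (a b : Fin 4)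
    (h : ∀ l, r ⬝ᵥ f l = (if a = l then 1 else 0) - (if b = l then 1 else 0)) (k : Fin 4) :
    r ⬝ᵥ chainP f z σ k = r ⬝ᵥ z + eta a b σ k := by
  unfold chainP eta
  rw [dotProduct_add]
  congr 1
  rw [dotProduct_sum]
  refine Finset.sum_congr rfl (fun j _ => ?_)
  split_ifs with h1
  all_goals first
    | (rw [h]; simp_all)
    | simp

/-- (N2) -/
theorem eta_le (a b : Fin 4) (σ : Equiv.Perm (Fin 3)) (k l : Fin 4) : eta a b σ k - eta a b σ l ≤ 1 := by
  revert a b σ k l
  decide

/-- (N3) -/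
theorem tt_mem (a b : Fin 4) (hab : a ≠ b) (σ : Equiv.Perm (Fin 3)) : tt a b σ = 0 ∨ tt a b σ = 1 := by
  revert a b σ
  decide

theorem tt_symm (a b : Fin 4) (σ : Equiv.Perm (Fin 3)) : tt a b σ = tt b a σ := by
  revert a b σ
  decide

theorem tt_total (σ : Equiv.Perm (Fin 3)) : ∑ t : Fin 6, tt (pa t) (pb t) σ = 2 := by
  revert σ
  decide

/-- an integer vector with zero products with a superbase vanishes -/
theorem eq_of_dot (f g : Fin 4 → Fin 3 → ℤ) (h : Superb f g) (r r' : Fin 3 → ℤ)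
    (hr : ∀ l, r ⬝ᵥ f l = r' ⬝ᵥ f l) : r = r' := by
  have h1 : ∀ v : Fin 3 → ℝ, toR r ⬝ᵥ v = toR r' ⬝ᵥ v := by
    intro v
    rw [← repr_vec f g h v, dotProduct_sum, dotProduct_sum]
    refine Finset.sum_congr rfl (fun l _ => ?_)
    rw [dotProduct_smul, dotProduct_smul]
    congr 1
    have h2 := congrArg (Int.cast : ℤ → ℝ) (hr l)
    simp only [dotProduct, Int.cast_sum, Int.cast_mul] at h2
    exact h2
  funext k
  have h2 := h1 (Pi.single k 1)
  rw [dotProduct_single, dotProduct_single, mul_one, mul_one] at h2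
  unfold toR at h2
  exact_mod_cast h2

/-- (N4) at most two of the common roots have both values twice -/
theorem tt_sum (F G f g : Fin 4 → Fin 3 → ℤ) (hF : Superb F G) (hf : Superb f g) (σ : Equiv.Perm (Fin 3))
    (S : Finset (Fin 6)) (a b : Fin 6 → Fin 4) (hab : ∀ s ∈ S, a s ≠ b s)
    (h : ∀ s ∈ S, ∀ l, rt G s ⬝ᵥ f l = (if a s = l then 1 else 0) - (if b s = l then 1 else 0)) :
    ∑ s ∈ S, tt (a s) (b s) σ ≤ 2 := by
  classical
  have hidx : ∀ a b : Fin 4, ∃ t : Fin 6, a ≠ b → (pa t = a ∧ pb t = b) ∨ (pa t = b ∧ pb t = a) := by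
    decide
  choose idx hidx using hidx
  have htt : ∀ s ∈ S, tt (a s) (b s) σ = tt (pa (idx (a s) (b s))) (pb (idx (a s) (b s))) σ := by
    intro s hs
    rcases hidx _ _ (hab s hs) with ⟨h1, h2⟩ | ⟨h1, h2⟩
    · rw [h1, h2]
    · rw [h1, h2]
      exact tt_symm _ _ _
  have hinj : Set.InjOn (fun s => idx (a s) (b s)) (S : Set (Fin 6)) := by
    intro s hs s' hs' heq
    have hs1 : s ∈ S := hs
    have hs2 : s' ∈ S := hs'
    have e1 := hidx _ _ (hab s hs1)
    have e2 := hidx _ _ (hab s' hs2)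
    simp only at heq
    rw [heq] at e1
    have hcases : (a s = a s' ∧ b s = b s') ∨ (a s = b s' ∧ b s = a s') := by
      rcases e1 with ⟨h1, h2⟩ | ⟨h1, h2⟩ <;> rcases e2 with ⟨h3, h4⟩ | ⟨h3, h4⟩
      · exact Or.inl ⟨h1.symm.trans h3, h2.symm.trans h4⟩
      · exact Or.inr ⟨h1.symm.trans h3, h2.symm.trans h4⟩
      · exact Or.inr ⟨h2.symm.trans h4, h1.symm.trans h3⟩
      · exact Or.inl ⟨h2.symm.trans h4, h1.symm.trans h3⟩
    have hroot : rt G s = rt G s' ∨ rt G s = -rt G s' := by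
      rcases hcases with ⟨h1, h2⟩ | ⟨h1, h2⟩
      · left
        apply eq_of_dot f g hf
        intro l
        rw [h s hs1, h s' hs2, h1, h2]
      · right
        apply eq_of_dot f g hf
        intro l
        rw [neg_dotProduct, h s hs1, h s' hs2, h1, h2]
        ring
    have hval : ∀ s : Fin 6, ∀ l, rt G s ⬝ᵥ F l = (if pa s = l then 1 else 0) - (if pb s = l then 1 else 0) :=
      fun s l => hF.2 (pa s) (pb s) l
    have hfin : ∀ s s' : Fin 6,
        ((∀ l : Fin 4, ((if pa s = l then 1 else 0) - (if pb s = l then 1 else 0) : ℤ) =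
          (if pa s' = l then 1 else 0) - (if pb s' = l then 1 else 0)) ∨
        (∀ l : Fin 4, ((if pa s = l then 1 else 0) - (if pb s = l then 1 else 0) : ℤ) =
          -((if pa s' = l then 1 else 0) - (if pb s' = l then 1 else 0)))) → s = s' := by
      decide
    apply hfin s s'
    rcases hroot with h1 | h1
    · left
      intro l
      rw [← hval, ← hval, h1]
    · right
      intro l
      rw [← hval, ← hval, h1, neg_dotProduct]
  calc ∑ s ∈ S, tt (a s) (b s) σ
      = ∑ s ∈ S, tt (pa (idx (a s) (b s))) (pb (idx (a s) (b s))) σ := Finset.sum_congr rfl htt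
    _ = ∑ t ∈ S.image (fun s => idx (a s) (b s)), tt (pa t) (pb t) σ := by
        rw [Finset.sum_image hinj]
    _ ≤ ∑ t : Fin 6, tt (pa t) (pb t) σ := by
        refine Finset.sum_le_sum_of_subset_of_nonneg (Finset.subset_univ _) (fun t _ _ => ?_)
        have hne : pa t ≠ pb t := by
          have h9 : ∀ t : Fin 6, pa t ≠ pb t := by decide
          exact h9 t
        rcases tt_mem (pa t) (pb t) hne σ with h1 | h1 <;> rw [h1] <;> norm_num
    _ = 2 := tt_total σ

end Pool.Agent.Helper1.UB2
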